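import Pool.Agent.W64.DM.Stm

/-! Project DM, piece GOOD: pairs with small gcd. -/

set_option autoImplicit false
set_option maxHeartbeats 4000000

namespace Pool.Agent.W85.DM.Good
open Pool.Agent.W64.DM

theorem nn_neg_le (x : ℝ) : nn (-x) ≤ nn x := by
  unfold nn
  have h := round_le (-x) (-(round x))
  have h2 : |(-x) - ((-(round x) : ℤ) : ℝ)| = |x - round x| := by
    push_cast
    rw [← abs_neg]
    congr 1
    ring
  rw [h2] at h
  exact h

theorem nn_neg (x : ℝ) : nn (-x) = nn x := by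
  apply le_antisymm (nn_neg_le x)
  have := nn_neg_le (-x)
  rwa [neg_neg] at this

theorem rad_pos (d R : ℕ) (a : Fin d → ℕ) (b : ℕ) (hR : 1 ≤ R) : 0 < rad d R a b := by
  unfold rad
  have : (0 : ℝ) < R := by exact_mod_cast hR
  positivity

theorem rad_le (d R : ℕ) (a : Fin d → ℕ) (b : ℕ) (hd : 1 ≤ d) (hR : 1 ≤ R)
    (ha : ∀ i, 3 * R ≤ a i) (hb : R ≤ b) : rad d R a b ≤ 1 / 2 ^ (4 * R + 2) := by
  unfold rad
  have h1 : (1 : ℝ) ≤ ((4 * d + 2 : ℝ) * R) ^ (d + 1) := by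
    apply one_le_pow₀
    have h2 : (1 : ℝ) ≤ R := by exact_mod_cast hR
    have h3 : (0 : ℝ) ≤ d := by positivity
    nlinarith
  have h2 : 4 * R + 2 ≤ ∑ i, a i + b + (d + 1) := by
    have h3 : 3 * R ≤ ∑ i, a i := by
      have h4 : a ⟨0, hd⟩ ≤ ∑ i, a i := Finset.single_le_sum (fun _ _ => Nat.zero_le _)
        (Finset.mem_univ _)
      have h5 := ha ⟨0, hd⟩
      omega
    omega
  have h3 : (2 : ℝ) ^ (4 * R + 2) ≤ 2 ^ (∑ i, a i + b + (d + 1)) :=
    pow_le_pow_right₀ (by norm_num) h2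
  apply one_div_le_one_div_of_le (by positivity)
  calc (2 : ℝ) ^ (4 * R + 2) ≤ 2 ^ (∑ i, a i + b + (d + 1)) := h3
    _ = 1 * 2 ^ (∑ i, a i + b + (d + 1)) := (one_mul _).symm
    _ ≤ _ := by
        apply mul_le_mul_of_nonneg_right h1
        positivity

theorem main : S_CNT → S_TT → S_GOOD := by
  intro hC hT d α c0 hd hNA
  obtain ⟨R0, hR0⟩ := hT d α c0 hd hNA
  refine ⟨max R0 1, ?_⟩
  intro R hR a a' b b' g p p' ha ha' hb1 hb2 hb1' hb2' hg1 hg2 hg1' hg2' hcop hg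
  have hRR : R0 ≤ R := le_trans (le_max_left _ _) hR
  have hR1 : 1 ≤ R := le_trans (le_max_right _ _) hR
  have hgp : 0 < g * p := lt_of_lt_of_le (by positivity) hg1
  have hgp' : 0 < g * p' := lt_of_lt_of_le (by positivity) hg1'
  have hg0 : 0 < g := Nat.pos_of_mul_pos_right hgp
  have hp0 : 0 < p := Nat.pos_of_mul_pos_left hgp
  have hp0' : 0 < p' := Nat.pos_of_mul_pos_left hgp'
  have hr := rad_pos d R a b hR1
  have hr' := rad_pos d R a' b' hR1
  have hrl := rad_le d R a b hd hR1 (fun i => (ha i).1) hb1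
  have hrl' := rad_le d R a' b' hd hR1 (fun i => (ha' i).1) hb1'
  obtain ⟨ρ, hρ⟩ : ∃ ρ : ℝ, ρ = p' * rad d R a b + p * rad d R a' b' := ⟨_, rfl⟩
  rw [← hρ]
  have hpR : (0 : ℝ) < p := by exact_mod_cast hp0
  have hpR' : (0 : ℝ) < p' := by exact_mod_cast hp0'
  have hρ0 : 0 < ρ := by
    rw [hρ]
    positivity
  have hple : ∀ q c : ℕ, g * q < 2 ^ (c + 1) → c < 2 * R → (q : ℝ) ≤ 2 ^ (2 * R) := by
    intro q c h1 h2
    have h3 : q ≤ g * q := Nat.le_mul_of_pos_left q hg0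
    have h4 : 2 ^ (c + 1) ≤ 2 ^ (2 * R) := Nat.pow_le_pow_right (by norm_num) (by omega)
    have h5 : q ≤ 2 ^ (2 * R) := by omega
    exact_mod_cast h5
  have hone : ∀ (q : ℕ) (r : ℝ), (q : ℝ) ≤ 2 ^ (2 * R) → 0 < r → r ≤ 1 / 2 ^ (4 * R + 2) →
      q * r ≤ 1 / 16 := by
    intro q r h1 h2 h3
    have h4 : (2 : ℝ) ^ (4 * R + 2) = 2 ^ (2 * R) * 2 ^ (2 * R + 2) := by
      rw [← pow_add]
      congr 1
      ring
    have h5 : (16 : ℝ) ≤ 2 ^ (2 * R + 2) := by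
      have : (2 : ℝ) ^ 4 ≤ 2 ^ (2 * R + 2) := pow_le_pow_right₀ (by norm_num) (by omega)
      calc (16 : ℝ) = 2 ^ 4 := by norm_num
        _ ≤ _ := this
    calc (q : ℝ) * r ≤ 2 ^ (2 * R) * (1 / 2 ^ (4 * R + 2)) := by
          apply mul_le_mul h1 h3 h2.le (by positivity)
      _ = 1 / 2 ^ (2 * R + 2) := by
          rw [h4]
          field_simp
      _ ≤ 1 / 16 := by
          apply one_div_le_one_div_of_le (by norm_num) h5
  have hρ1 : ρ ≤ 1 / 8 := by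
    have h1 := hone p' _ (hple p' b' hg2' hb2') hr hrl
    have h2 := hone p _ (hple p b hg2 hb2) hr' hrl'
    rw [hρ]
    linarith
  obtain ⟨Q, hQ⟩ : ∃ Q : Fin d ⊕ Fin d → ℕ,
      Q = Sum.elim (fun i => 2 ^ (a i)) (fun i => 2 ^ (a' i)) := ⟨_, rfl⟩
  obtain ⟨θ, hθ⟩ : ∃ θ : Fin d ⊕ Fin d → ℝ,
      θ = Sum.elim (fun i => p' * α i) (fun i => -(p * α i)) := ⟨_, rfl⟩
  have hQl : ∀ i, Q (Sum.inl i) = 2 ^ (a i) := by
    intro i
    rw [hQ]
    rfl
  have hQr : ∀ i, Q (Sum.inr i) = 2 ^ (a' i) := by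
    intro i
    rw [hQ]
    rfl
  have hθl : ∀ i, θ (Sum.inl i) = p' * α i := by
    intro i
    rw [hθ]
    rfl
  have hθr : ∀ i, θ (Sum.inr i) = -(p * α i) := by
    intro i
    rw [hθ]
    rfl
  have hQ1 : ∀ i, 1 ≤ Q i := by
    rintro (i | i)
    · rw [hQl]
      exact Nat.one_le_two_pow
    · rw [hQr]
      exact Nat.one_le_two_pow
  have hhyp : ∀ t : ℕ, 0 < t → (t : ℝ) ≤ 1 / ρ → ∃ i, 1 / (Q i : ℝ) ≤ nn (t * θ i) := by
    intro t ht0 ht
    have h1 : (t : ℝ) * ρ ≤ 1 := by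
      rw [le_div_iff₀ hρ0] at ht
      exact ht
    rw [hρ] at h1
    obtain ⟨i, hi | hi⟩ := hR0 R hRR a a' b b' g p p' t ha ha' hb1 hb2 hb1' hb2' hg1 hg2 hg1' hg2'
      hcop hg ht0 h1
    · refine ⟨Sum.inl i, ?_⟩
      rw [hQl, hθl]
      push_cast
      exact hi
    · refine ⟨Sum.inr i, ?_⟩
      rw [hQr, hθr]
      push_cast
      rw [mul_neg, nn_neg]
      exact hi
  have hmain := hC (Fin d ⊕ Fin d) Q Q θ 0 ρ hQ1 hρ0 hρ1 hhyp
  have hcard : Fintype.card (Fin d ⊕ Fin d) = 2 * d := by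
    rw [Fintype.card_sum, Fintype.card_fin]
    ring
  have hprod : ∏ i, (Q i : ℝ) = 2 ^ (∑ i, a i + ∑ i, a' i) := by
    rw [Fintype.prod_sum_type, pow_add]
    congr 1
    · rw [← Finset.prod_pow_eq_pow_sum]
      apply Finset.prod_congr rfl
      intro i _
      rw [hQl]
      push_cast
      rfl
    · rw [← Finset.prod_pow_eq_pow_sum]
      apply Finset.prod_congr rfl
      intro i _
      rw [hQr]
      push_cast
      rfl
  rw [hcard, hprod] at hmain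
  refine le_trans ?_ hmain
  norm_cast
  unfold cnt
  refine Finset.card_le_card_of_injOn
    (fun q : (Fin d → ℕ) × (Fin d → ℕ) => (Sum.elim q.1 q.2 : Fin d ⊕ Fin d → ℕ)) ?_ ?_
  · rintro ⟨m, m'⟩ hq
    rw [Finset.mem_coe, Finset.mem_filter, Finset.mem_product] at hq
    rw [Finset.mem_coe, Finset.mem_filter]
    obtain ⟨⟨hm, hm'⟩, hne, hlt⟩ := hq
    unfold bx at hm hm'
    rw [Fintype.mem_piFinset] at hm hm'
    constructor
    · refine (@Fintype.mem_piFinset _ (fun a b => Classical.propDecidable (a = b)) _ _ _ _).2 ?_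
      rintro (i | i)
      · have h5 : 2 ^ a i ≤ m i ∧ m i < 2 ^ (a i + 1) := Finset.mem_Ico.1 (hm i)
        rw [Finset.mem_Ico, hQl]
        show 2 ^ a i ≤ m i ∧ m i < 2 ^ a i + 2 ^ a i
        rw [pow_succ] at h5
        omega
      · have h5 : 2 ^ a' i ≤ m' i ∧ m' i < 2 ^ (a' i + 1) := Finset.mem_Ico.1 (hm' i)
        rw [Finset.mem_Ico, hQr]
        show 2 ^ a' i ≤ m' i ∧ m' i < 2 ^ a' i + 2 ^ a' i
        rw [pow_succ] at h5
        omega
    · have h1 : (∑ i, θ i * ((Sum.elim m m' i : ℕ) : ℝ)) - 0 = dotp α (ww p p' m m') := by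
        rw [sub_zero, Fintype.sum_sum_type]
        unfold dotp ww
        rw [← Finset.sum_add_distrib]
        apply Finset.sum_congr rfl
        intro i _
        rw [hθl, hθr]
        simp only [Sum.elim_inl, Sum.elim_inr]
        push_cast
        ring
      show nn ((∑ i, θ i * ((Sum.elim m m' i : ℕ) : ℝ)) - 0) < ρ
      rw [h1]
      exact hlt
  · rintro ⟨m, m'⟩ _ ⟨n, n'⟩ _ h
    have h' : (Sum.elim m m' : Fin d ⊕ Fin d → ℕ) = Sum.elim n n' := h
    have h1 : m = n := by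
      funext i
      exact congrFun h' (Sum.inl i)
    have h2 : m' = n' := by
      funext i
      exact congrFun h' (Sum.inr i)
    rw [h1, h2]

end Pool.Agent.W85.DM.Good
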